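import Mathlib
import Pool.Agent.H381R4.CM.Stubs

set_option autoImplicit false
open MeasureTheory Matrix Filter Topology
open scoped ENNReal BigOperators Pointwise

/-! Task DET: the Cauchy-Binet formula, symmetrised. -/

namespace Pool.Agent.H381CM

namespace DET

theorem expand {d : ℕ} {ι : Type} [Fintype ι] (u : ι → V d) (a : ι → ℝ) :
    (AA u a).det = ∑ f : Fin d → ι, (∏ r, (a (f r) * u (f r) r)) * (UU u f).det := by
  classical
  have h1 : (AA u a) = Matrix.of (fun r : Fin d => ∑ k, (a k * u k r) • u k) := by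
    ext i j
    simp only [AA, Matrix.sum_apply, Matrix.smul_apply, vecMulVec_apply, Matrix.of_apply,
      Finset.sum_apply, Pi.smul_apply, smul_eq_mul]
    exact Finset.sum_congr rfl fun k _ => by ring
  have h2 := (Matrix.detRowAlternating (n := Fin d) (R := ℝ)).toMultilinearMap.map_sum
    (fun (r : Fin d) (k : ι) => (a k * u k r) • u k)
  rw [h1]
  calc (Matrix.of (fun r : Fin d => ∑ k, (a k * u k r) • u k)).det
      = ∑ f : Fin d → ι, (Matrix.of (fun r : Fin d => (a (f r) * u (f r) r) • u (f r))).det := h2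
    _ = ∑ f : Fin d → ι, (∏ r, (a (f r) * u (f r) r)) * (UU u f).det := by
        refine Finset.sum_congr rfl fun f _ => ?_
        have h3 := (Matrix.detRowAlternating (n := Fin d) (R := ℝ)).toMultilinearMap.map_smul_univ
          (fun r : Fin d => a (f r) * u (f r) r) (fun r => u (f r))
        simp only [smul_eq_mul] at h3
        exact h3

theorem perm {d : ℕ} {ι : Type} (u : ι → V d) (f : Fin d → ι) (σ : Equiv.Perm (Fin d)) :
    (UU u (f ∘ σ)).det = (Equiv.Perm.sign σ : ℤ) * (UU u f).det := by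
  have h : UU u (f ∘ σ) = (UU u f).submatrix σ id := by
    ext i j
    rfl
  rw [h, Matrix.det_permute]

end DET

theorem T_DET : S_DET := by
  intro d ι _ u a
  classical
  rw [DET.expand]
  have hcard : (d.factorial : ℝ) = ∑ _σ : Equiv.Perm (Fin d), (1 : ℝ) := by
    rw [Finset.sum_const, Finset.card_univ, Fintype.card_perm, Fintype.card_fin]
    simp
  rw [hcard, Finset.mul_sum]
  have hs : ∀ σ : Equiv.Perm (Fin d),
      (∑ f : Fin d → ι, (∏ r, (a (f r) * u (f r) r)) * (UU u f).det) * 1 =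
      ∑ f : Fin d → ι, (∏ r, a (f r)) * (UU u f).det *
        ((Equiv.Perm.sign σ : ℤ) * ∏ r, UU u f (σ r) r) := by
    intro σ
    rw [mul_one]
    rw [← Equiv.sum_comp (Equiv.arrowCongr σ.symm (Equiv.refl ι))]
    refine Finset.sum_congr rfl fun f _ => ?_
    have e : (Equiv.arrowCongr σ.symm (Equiv.refl ι)) f = f ∘ σ := by
      funext i
      rfl
    rw [e, DET.perm, Finset.prod_mul_distrib]
    have e2 : ∏ r, a ((f ∘ σ) r) = ∏ r, a (f r) := Equiv.prod_comp σ (fun r => a (f r))
    have e3 : ∏ r, u ((f ∘ σ) r) r = ∏ r, UU u f (σ r) r := rfl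
    rw [e2, e3]
    ring
  rw [Finset.sum_congr rfl fun σ _ => hs σ, Finset.sum_comm]
  refine Finset.sum_congr rfl fun f _ => ?_
  rw [← Finset.mul_sum]
  have h4 : (UU u f).det = ∑ σ : Equiv.Perm (Fin d), ((Equiv.Perm.sign σ : ℤ) : ℝ) * ∏ r, UU u f (σ r) r :=
    Matrix.det_apply' _
  rw [← h4]
  ring

end Pool.Agent.H381CM
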